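import Pool.Agent.J4H48.HN.Stm

/-! Project HN (MP_0e6b5f_nt), piece CELL. -/

set_option autoImplicit false

open Polynomial

namespace Pool.Agent.J4H79.HN

open Pool.Agent.J4H48.HN

/-- CELL. -/
theorem t_CELL : S_CELL := by
  intro θ h0 h1
  refine ⟨1 / θ, by rw [le_div_iff₀ h0]; linarith, fun s s' hs hss hf => ?_⟩
  rcases (hs.trans hss).eq_or_lt with h | hpos
  · have : s = 0 := le_antisymm (h ▸ hss) hs
    rw [← h, this, sub_self, Real.zero_rpow (by linarith), mul_zero]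
  have hd : s' ^ θ - s ^ θ < 1 := by
    have h2 := Int.floor_le (s ^ θ)
    have h3 := Int.lt_floor_add_one (s' ^ θ)
    rw [← hf] at h3
    linarith
  have hb := rpow_one_add_le_one_add_mul_self (s := s / s' - 1) (by
    have : 0 ≤ s / s' := by positivity
    linarith) h0.le h1.le
  rw [show 1 + (s / s' - 1) = s / s' by ring, Real.div_rpow hs hpos.le] at hb
  have hp : 0 < s' ^ θ := Real.rpow_pos_of_pos hpos θ
  have h4 : θ * (1 - s / s') * s' ^ θ < 1 := by
    have h5 : θ * (1 - s / s') ≤ 1 - s ^ θ / s' ^ θ := by linarith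
    calc θ * (1 - s / s') * s' ^ θ ≤ (1 - s ^ θ / s' ^ θ) * s' ^ θ :=
          mul_le_mul_of_nonneg_right h5 hp.le
      _ = s' ^ θ - s ^ θ := by field_simp
      _ < 1 := hd
  have h6 : s' ^ (1 - θ) * s' ^ θ = s' := by
    rw [← Real.rpow_add hpos, show 1 - θ + θ = 1 by ring, Real.rpow_one]
  have h7 : 0 < s' ^ (1 - θ) := Real.rpow_pos_of_pos hpos _
  rw [one_div, inv_mul_eq_div, le_div_iff₀ h0]
  have h8 : (s' - s) * θ = s' ^ (1 - θ) * (θ * (1 - s / s') * s' ^ θ) := by
    calc (s' - s) * θ = s' * (θ * (1 - s / s')) := by field_simp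
      _ = (s' ^ (1 - θ) * s' ^ θ) * (θ * (1 - s / s')) := by rw [h6]
      _ = _ := by ring
  rw [h8]
  nlinarith

end Pool.Agent.J4H79.HN
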