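import Pool.Agent.J4H48.HN.Stm

/-! Project HN (MP_0e6b5f_nt), piece NORM. -/

set_option autoImplicit false

open Polynomial

namespace Pool.Agent.J4H79.HN

open Pool.Agent.J4H48.HN

/-- NORM. -/
theorem t_NORM : S_NORM := by
  intro K _ _ x hx t
  have hy : IsIntegral ℤ ((t : K) - x) := by
    have h1 : IsIntegral ℤ (t : K) := by
      have := isIntegral_algebraMap (R := ℤ) (A := K) (x := t)
      simpa using this
    exact h1.sub hx
  have hn : IsIntegral ℤ (Algebra.norm ℚ ((t : K) - x)) := Algebra.isIntegral_norm ℚ hy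
  obtain ⟨N, hN⟩ := IsIntegrallyClosed.isIntegral_iff.mp hn
  refine ⟨N, ?_⟩
  have h2 := Algebra.norm_eq_prod_embeddings ℚ ℂ ((t : K) - x)
  rw [← hN] at h2
  have h3 : ∏ σ : K →ₐ[ℚ] ℂ, σ ((t : K) - x) = ∏ σ : K →+* ℂ, ((t : ℂ) - σ x) := by
    refine Fintype.prod_equiv (RingHom.equivRatAlgHom K ℂ).symm _ _ fun σ => ?_
    have e : ((RingHom.equivRatAlgHom K ℂ).symm σ : K →+* ℂ) x = σ x := rfl
    rw [e, map_sub, map_intCast]
  rw [← h3, ← h2]
  simp

end Pool.Agent.J4H79.HN
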